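import Pool.Agent.R957.BRW.Tools

/-!
# The fixed points of an irreducible branching random walk: at most two, or continuum many

`pop`, `law`, `gen` are those of the starting library `Pool.Agent.H632R3.BranchGen`;
`qExt`, `fixSet`, `Irr` are in `Pool.Agent.R957.BRW.Defs`.
-/

namespace Pool.Agent.Results.MP_2fa7ec_pr.FixedPointsFiniteOrContinuum

open Pool.Agent.R957.BRW

/-- For an irreducible branching random walk the set `F_G` of fixed points of the generating
function in `[0,1]^X` is either `{q(·,X), 1}` or has the cardinality of the continuum. -/
theorem result (X : Type) [Countable X] (μ : X → PMF (X →₀ ℕ)) (hirr : Irr μ) :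
    fixSet μ = {qExt μ Set.univ, 1} ∨ Cardinal.mk (fixSet μ) = Cardinal.continuum :=
  irr_dichotomy μ hirr

end Pool.Agent.Results.MP_2fa7ec_pr.FixedPointsFiniteOrContinuum
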